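import Pool.Agent.Helper99_TP3.RuleC
import Pool.Agent.Helper57_C3.Stmts
import Pool.Agent.Helper51_TP.Rules

/-!
# MP_ce3ba7_al, module RC (helper99): the noncommutative part with a multilinear identity
-/

set_option autoImplicit false

namespace Pool.Agent.TP.RC

open Pool.Agent.TP Pool.Agent.TP.H67

theorem lets_eq (w : FreeMagma ℕ) : H52.lets w = C3.lv w := by
  induction w using FreeMagma.recOnMul with
  | ih1 i => rfl
  | ih2 a b iha ihb =>
    show H52.lets a + H52.lets b = C3.lv a + C3.lv b
    rw [iha, ihb]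

theorem mlid_of {F B : Type} [Field F] [NonUnitalNonAssocRing B] [Module F B]
    [IsScalarTower F B B] [SMulCommClass F B B] (h : C3.HasML F B) : MLId F B := by
  obtain ⟨n, f, h1, h2, h3⟩ := h
  refine ⟨Finset.range n, f.coeff.support, f.coeff, fun w hw => ?_, ?_, fun y => ?_⟩
  · rw [lets_eq, h1 w hw]
    rfl
  · have h4 : ∑ w ∈ f.coeff.support, f.coeff w = 1 := h2
    rw [h4]
    exact one_ne_zero
  · have h4 := h3 y
    rw [MonoidAlgebra.liftMagma_apply_apply] at h4
    exact h4

theorem rc : C3.RCStmt := by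
  intro F _ h3 S hS B _ _ _ _ x hM hML hX
  have hB3 : ∀ a : B, a + a + a = 0 := by
    intro a
    have h : (3 : F) • a = a + a + a := by
      rw [show (3 : F) = 1 + 1 + 1 by norm_num, add_smul, add_smul, one_smul]
    rw [← h, h3, zero_smul]
  exact comm hM (rules F S hS B x hM.rel hM.alt hM.sat hM.prime hM.nsol) hB3 (mlid_of hML) hX

end Pool.Agent.TP.RC
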