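import Pool.Agent.Helper48_C3.BaseF
import Pool.Agent.Helper48_C3.Ncln
import Pool.Agent.Helper50_TP3.Fin3
import Pool.Agent.Helper99_TP3.RC

/-!
# MP_ce3ba7_al, module COMM3 (helper99): the commutative theorem in characteristic 3
-/

set_option autoImplicit false
set_option linter.unusedSectionVars false
set_option linter.style.haveILetI false

namespace Pool.Agent.TP.RC

open Pool.Agent.TP Pool.Agent.C3

theorem polyF_clone (B : Type) [NonUnitalNonAssocCommRing B] : Clone B (PolyF B) where
  proj ι i := PolyF.proj i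
  const ι b := PolyF.const b
  add ι f g hf hg := PolyF.add f g hf hg
  sub ι f g hf hg := PolyF.sub f g hf hg
  mul ι f g hf hg := PolyF.mul f g hf hg
  comp ι κ f g hf hg := by
    induction hf with
    | proj i => exact hg i
    | const b => exact PolyF.const b
    | add f g _ _ h1 h2 => exact PolyF.add _ _ h1 h2
    | sub f g _ _ h1 h2 => exact PolyF.sub _ _ h1 h2
    | mul f g _ _ h1 h2 => exact PolyF.mul _ _ h1 h2

/-- COMM3 -/
theorem comm3 (hCC : CCStmt) (hLN : LNStmt) (hFF : FFStmt) : Comm3Stmt := by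
  intro F _ h3 S hS
  by_contra hns
  obtain ⟨B, iB, iM, iT, iC, x, hM⟩ := primeQ F _ hns
  have hS' : AssNil F (insert (comId F) S) := by
    intro A _ _ _ _ h1 h2 h4 h5
    exact hS A h1 h2 (fun f hf φ => h4 f (Set.mem_insert_of_mem _ hf) φ) h5
  have hB3 : ∀ a : B, a + a + a = 0 := fun a => three_of h3 a
  have hcom : ∀ a b : B, a * b = b * a := by
    intro a b
    have h := hM.sat (comId F) (Set.mem_insert _ _) (fun i => if i = 0 then a else b)
    have h1 : MonoidAlgebra.liftMagma F (FreeMagma.lift fun i => if i = 0 then a else b)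
        (H67.mo F (FreeMagma.of 0 * FreeMagma.of 1)) = a * b := by
      rw [H67.mo]
      simp
    have h2 : MonoidAlgebra.liftMagma F (FreeMagma.lift fun i => if i = 0 then a else b)
        (H67.mo F (FreeMagma.of 1 * FreeMagma.of 0)) = b * a := by
      rw [H67.mo]
      simp
    unfold comId at h
    rw [map_sub, h1, h2, sub_eq_zero] at h
    exact h
  have hX : ∀ a b : B, C3.cm a (C3.cm a b) = 0 := by
    intro a b
    unfold C3.cm
    rw [hcom b a, sub_self, mul_zero, zero_mul, sub_zero]
  have hR : Rules B := rules F _ hS' B x hM.rel hM.alt hM.sat hM.prime hM.nsol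
  have hcube : ∀ a : B, (a * a) * a = 0 := fun a =>
    hR.nuc _ fun y z => cube_nuc hM.alt hB3 hX a y z
  have hL : LNh F B := H48.ncln hLN F h3 B hM.alt hX hcube
  have hML : HasML F B := hFF F _ hS' B x hM hL
  letI iB' : NonUnitalNonAssocCommRing B := { iB with mul_comm := hcom }
  have hCA : CA B := ⟨hB3, hM.alt.1⟩
  have hV := H48.baseF F _ B x hCA hM hML
  have h0 := hCC B (PolyF B) hCA (polyF_clone B) hR.nuc (fun g h1 h2 =>
    hR.ann g h1 (fun x y z => by rw [hcom]; exact h1 x y z) h2) hV
  obtain ⟨a, b, c, habc⟩ := hR.nonassoc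
  exact habc (h0 a b c)

/-- characteristic 3 from the four remaining modules -/
theorem char3 (hClos : ClosStmt) (hCC : CCStmt) (hLN : LNStmt) (hFF : FFStmt) : Char3Stmt :=
  fin3 hClos (H48.ncln hLN) hFF rc (comm3 hCC hLN hFF)

end Pool.Agent.TP.RC
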