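import Pool.Agent.Helper99_TP3.Elem
import Pool.Agent.Helper52_TP.Abel

/-!
# MP_ce3ba7_al, module C3-C (helper99): the multilinear identity kills derivations of large arity
-/

set_option autoImplicit false
set_option linter.unusedSectionVars false

namespace Pool.Agent.TP.RC

open Pool.Agent.TP Pool.Agent.TP.H67 Pool.Agent.TP.B3 Function
open Pool.Agent.TP.H52 (lets lets_of lets_mul)

/-- a multilinear identity with nonzero coefficient sum -/
def MLId (F B : Type) [Field F] [NonUnitalNonAssocRing B] [Module F B] : Prop :=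
  ∃ (A : Finset ℕ) (T : Finset (FreeMagma ℕ)) (c : FreeMagma ℕ → F),
    (∀ w ∈ T, lets w = A.val) ∧ ∑ w ∈ T, c w ≠ 0 ∧
    ∀ y : ℕ → B, ∑ w ∈ T, c w • FreeMagma.lift y w = 0

section
variable {B : Type} [NonUnitalNonAssocRing B]

/-- multiplication by `a`, Jordan product -/
def joL (a : B) : B →+ B := AddMonoidHom.mk' (fun b => jo a b) (fun b c => jo_add2 a b c)

/-- commutator with `a` -/
def kbL (a : B) : B →+ B := AddMonoidHom.mk' (fun b => kb a b) (fun b c => kb_add2 a b c)

theorem joL_apply (a b : B) : joL a b = jo a b := rfl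
theorem kbL_apply (a b : B) : kbL a b = kb a b := rfl

/-- choice of one of two assignments in every letter -/
def sel (X Y : ℕ → B) (e : Finset ℕ) : ℕ → B := fun i => if i ∈ e then Y i else X i

/-- flip -/
def fl (i : ℕ) (e : Finset ℕ) : Finset ℕ := if i ∈ e then e.erase i else insert i e

theorem mem_fl (i j : ℕ) (e : Finset ℕ) : j ∈ fl i e ↔ (j = i ∧ i ∉ e) ∨ (j ≠ i ∧ j ∈ e) := by
  unfold fl
  split_ifs with h
  · rw [Finset.mem_erase]
    constructor
    · intro h1; exact Or.inr h1
    · rintro (⟨_, h2⟩ | h1)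
      · exact absurd h h2
      · exact h1
  · rw [Finset.mem_insert]
    constructor
    · rintro (h1 | h1)
      · exact Or.inl ⟨h1, h⟩
      · by_cases h2 : j = i
        · exact Or.inl ⟨h2, h⟩
        · exact Or.inr ⟨h2, h1⟩
    · rintro (⟨h1, _⟩ | ⟨_, h1⟩)
      · exact Or.inl h1
      · exact Or.inr h1

theorem fl_fl (i : ℕ) (e : Finset ℕ) : fl i (fl i e) = e := by
  ext j
  rw [mem_fl, mem_fl, mem_fl]
  by_cases h : j = i
  · subst h; tauto
  · tauto

theorem fl_sub {i : ℕ} {s e : Finset ℕ} (hi : i ∈ s) (he : e ⊆ s) : fl i e ⊆ s := by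
  intro j hj
  rw [mem_fl] at hj
  rcases hj with ⟨h, _⟩ | ⟨_, h⟩
  · rw [h]; exact hi
  · exact he h

theorem sum_fl {i : ℕ} {s : Finset ℕ} (hi : i ∈ s) (G : Finset ℕ → B) :
    ∑ e ∈ s.powerset, G (fl i e) = ∑ e ∈ s.powerset, G e := by
  refine Finset.sum_nbij' (fl i) (fl i) ?_ ?_ ?_ ?_ ?_
  · intro e he
    rw [Finset.mem_powerset] at he ⊢
    exact fl_sub hi he
  · intro e he
    rw [Finset.mem_powerset] at he ⊢
    exact fl_sub hi he
  · intro e _; exact fl_fl i e
  · intro e _; exact fl_fl i e
  · intro e _; rfl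

theorem sel_fl (X Y : ℕ → B) (i : ℕ) (e : Finset ℕ) :
    sel X Y (fl i e) = update (sel X Y e) i (sel Y X e i) := by
  funext j
  by_cases h : j = i
  · subst h
    rw [update_self]
    unfold sel
    by_cases h1 : j ∈ e
    · rw [if_neg (by rw [mem_fl]; tauto), if_pos h1]
    · rw [if_pos (by rw [mem_fl]; tauto), if_neg h1]
  · rw [update_of_ne h]
    unfold sel
    by_cases h1 : j ∈ e
    · rw [if_pos (by rw [mem_fl]; tauto), if_pos h1]
    · rw [if_neg (by rw [mem_fl]; tauto), if_neg h1]

theorem jo_sel (X Y : ℕ → B) (i : ℕ) (e : Finset ℕ) :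
    jo (sel X Y e i) (sel Y X e i) = jo (X i) (Y i) := by
  unfold sel
  split_ifs with h
  · rw [jo_comm]
  · rfl

theorem lift_congr {A : Type} [Mul A] (y z : ℕ → A) (w : FreeMagma ℕ)
    (h : ∀ a ∈ lets w, y a = z a) : FreeMagma.lift y w = FreeMagma.lift z w := by
  induction w using FreeMagma.recOnMul with
  | ih1 i => rw [FreeMagma.lift_of, FreeMagma.lift_of]; exact h i (by rw [lets_of]; simp)
  | ih2 v w ihv ihw =>
    rw [map_mul, map_mul, ihv fun a ha => h a (by rw [lets_mul]; simp [ha]),
      ihw fun a ha => h a (by rw [lets_mul]; simp [ha])]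

theorem lift_sel_fl (X Y : ℕ → B) (i : ℕ) (e : Finset ℕ) (w : FreeMagma ℕ) (hi : i ∉ lets w) :
    FreeMagma.lift (sel X Y (fl i e)) w = FreeMagma.lift (sel X Y e) w := by
  refine lift_congr _ _ w fun a ha => ?_
  rw [sel_fl, update_of_ne]
  rintro rfl
  exact hi ha

/-- derivation in one letter -/
def DA (i : ℕ) (f : (ℕ → B) → B) : Prop := ∀ v : ℕ → B, ZD (fun a => f (update v i a))

theorem DA.cen {i : ℕ} {f : (ℕ → B) → B} (h : DA i f) (v : ℕ → B) : Cen (f v) := by
  have := (h v).cen (v i)
  rwa [update_eq_self] at this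

theorem DA.upd {i j : ℕ} (hij : i ≠ j) {f : (ℕ → B) → B} (h : DA i f) (c : B) :
    DA i (fun v => f (update v j c)) := by
  intro v
  have e : (fun a => (fun v => f (update v j c)) (update v i a)) =
      fun a => f (update (update v j c) i a) := by
    funext a
    show f (update (update v i a) j c) = _
    rw [update_comm hij]
  rw [e]
  exact h _

section
variable (hB : IsAlt B) (h3 : ∀ x : B, x + x + x = 0)
include hB h3

theorem half {i : ℕ} {s : Finset ℕ} (hi : i ∈ s) (G G' : Finset ℕ → B)
    (h : ∀ e, G e + G (fl i e) = G' e) :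
    ∑ e ∈ s.powerset, G e = - ∑ e ∈ s.powerset, G' e := by
  have h1 : ∑ e ∈ s.powerset, G' e = ∑ e ∈ s.powerset, G e + ∑ e ∈ s.powerset, G e := by
    nth_rewrite 2 [← sum_fl hi G]
    rw [← Finset.sum_add_distrib]
    exact Finset.sum_congr rfl fun e _ => (h e).symm
  rw [h1, n2 h3, neg_neg]

theorem letter (X Y : ℕ → B) {i : ℕ} {s : Finset ℕ} (hi : i ∈ s) {f : (ℕ → B) → B}
    (hf : DA i f) (H : Finset ℕ → B →+ B) (hH : ∀ e, H (fl i e) = H e) :
    ∑ e ∈ s.powerset, H e (jo (sel X Y e i) (f (sel Y X e))) =
      - ∑ e ∈ s.powerset, H e (f (update (sel Y X e) i (jo (X i) (Y i)))) := by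
  refine half hB h3 hi _ _ fun e => ?_
  rw [hH, ← map_add]
  congr 1
  rw [sel_fl, sel_fl, update_self, ← jo_sel X Y i e]
  have h1 := (hf (sel Y X e)).der (sel X Y e i) (sel Y X e i)
  rw [update_eq_self] at h1
  exact h1.symm

/-- the associator sums vanish -/
theorem base_a (X Y : ℕ → B) (s : Finset ℕ) : ∀ (n : ℕ) (p q : FreeMagma ℕ),
    p.length + q.length ≤ n → (lets p + lets q).Nodup → (∀ i ∈ lets p + lets q, i ∈ s) →
    ∀ (f : (ℕ → B) → B), (∀ i ∈ lets p + lets q, DA i f) → ∀ H : Finset ℕ → B →+ B,
    (∀ i ∈ lets p + lets q, ∀ e, H (fl i e) = H e) →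
    ∑ e ∈ s.powerset, H e (asc (f (sel Y X e)) (FreeMagma.lift (sel X Y e) p)
      (FreeMagma.lift (sel X Y e) q)) = 0 := by
  intro n
  induction n with
  | zero =>
    intro p q hn
    have := p.length_pos
    omega
  | succ n ih =>
    have prod : ∀ (a a' q : FreeMagma ℕ), (a * a').length + q.length ≤ n + 1 →
        (lets (a * a') + lets q).Nodup → (∀ i ∈ lets (a * a') + lets q, i ∈ s) →
        ∀ (f : (ℕ → B) → B), (∀ i ∈ lets (a * a') + lets q, DA i f) → ∀ H : Finset ℕ → B →+ B,
        (∀ i ∈ lets (a * a') + lets q, ∀ e, H (fl i e) = H e) →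
        ∑ e ∈ s.powerset, H e (asc (f (sel Y X e)) (FreeMagma.lift (sel X Y e) (a * a'))
          (FreeMagma.lift (sel X Y e) q)) = 0 := by
      intro a a' q hn hnd hs f hf H hH
      have hl : (a * a').length = a.length + a'.length := rfl
      have ha := a.length_pos
      have ha' := a'.length_pos
      have hq := q.length_pos
      rw [lets_mul] at hnd hs hf hH
      have hcen : ∀ v, Cen (f v) := by
        intro v
        have hne : ∃ i, i ∈ lets a := by
          have : ∀ w : FreeMagma ℕ, ∃ i, i ∈ lets w := by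
            intro w
            induction w using FreeMagma.recOnMul with
            | ih1 i => exact ⟨i, by rw [lets_of]; simp⟩
            | ih2 v w ihv ihw =>
              obtain ⟨i, hi⟩ := ihv
              exact ⟨i, by rw [lets_mul]; simp [hi]⟩
          exact this a
        obtain ⟨i, hi⟩ := hne
        exact (hf i (by simp [hi])).cen v
      rw [Multiset.nodup_add, Multiset.nodup_add] at hnd
      obtain ⟨⟨n1, n2, n3⟩, n4, n5⟩ := hnd
      rw [Multiset.disjoint_left] at n3 n5
      have h1 := ih a' q (by omega) (by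
          rw [Multiset.nodup_add, Multiset.disjoint_left]
          exact ⟨n2, n4, fun {i} hi => n5 (by simp [hi])⟩)
        (fun i hi => hs i (by
          rw [Multiset.mem_add] at hi
          rcases hi with hi | hi <;> simp [hi])) f
        (fun i hi => hf i (by
          rw [Multiset.mem_add] at hi
          rcases hi with hi | hi <;> simp [hi]))
        (fun e => (H e).comp (joL (FreeMagma.lift (sel X Y e) a))) (fun i hi e => by
          rw [Multiset.mem_add] at hi
          rw [hH i (by rcases hi with hi | hi <;> simp [hi]), lift_sel_fl]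
          rcases hi with hi | hi
          · exact fun h => n3 h hi
          · exact fun h => n5 (by simp [h]) hi)
      have h2 := ih a q (by omega) (by
          rw [Multiset.nodup_add, Multiset.disjoint_left]
          exact ⟨n1, n4, fun {i} hi => n5 (by simp [hi])⟩)
        (fun i hi => hs i (by
          rw [Multiset.mem_add] at hi
          rcases hi with hi | hi <;> simp [hi])) f
        (fun i hi => hf i (by
          rw [Multiset.mem_add] at hi
          rcases hi with hi | hi <;> simp [hi]))
        (fun e => (H e).comp (joL (FreeMagma.lift (sel X Y e) a'))) (fun i hi e => by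
          rw [Multiset.mem_add] at hi
          rw [hH i (by rcases hi with hi | hi <;> simp [hi]), lift_sel_fl]
          rcases hi with hi | hi
          · exact fun h => n3 hi h
          · exact fun h => n5 (by simp [h]) hi)
      have h3' := ih a a' (by omega) (by
          rw [Multiset.nodup_add, Multiset.disjoint_left]
          exact ⟨n1, n2, fun {i} hi => n3 hi⟩)
        (fun i hi => hs i (by
          rw [Multiset.mem_add] at hi
          rcases hi with hi | hi <;> simp [hi])) f
        (fun i hi => hf i (by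
          rw [Multiset.mem_add] at hi
          rcases hi with hi | hi <;> simp [hi]))
        (fun e => (H e).comp (kbL (FreeMagma.lift (sel X Y e) q))) (fun i hi e => by
          rw [Multiset.mem_add] at hi
          rw [hH i (by rcases hi with hi | hi <;> simp [hi]), lift_sel_fl]
          intro h
          rcases hi with hi | hi
          · exact n5 (by simp [hi]) h
          · exact n5 (by simp [hi]) h)
      have key : ∀ e, H e (asc (f (sel Y X e)) (FreeMagma.lift (sel X Y e) (a * a'))
          (FreeMagma.lift (sel X Y e) q)) =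
          - ((H e).comp (joL (FreeMagma.lift (sel X Y e) a))) (asc (f (sel Y X e))
            (FreeMagma.lift (sel X Y e) a') (FreeMagma.lift (sel X Y e) q)) +
          (- ((H e).comp (joL (FreeMagma.lift (sel X Y e) a'))) (asc (f (sel Y X e))
            (FreeMagma.lift (sel X Y e) a) (FreeMagma.lift (sel X Y e) q)) +
          ((H e).comp (kbL (FreeMagma.lift (sel X Y e) q))) (asc (f (sel Y X e))
            (FreeMagma.lift (sel X Y e) a) (FreeMagma.lift (sel X Y e) a'))) := by
        intro e
        simp only [AddMonoidHom.comp_apply, joL_apply, kbL_apply]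
        rw [← map_neg, ← map_neg, ← map_add, ← map_add]
        congr 1
        have e5 := s23 hB (f (sel Y X e)) (FreeMagma.lift (sel X Y e) q)
          (kb (FreeMagma.lift (sel X Y e) a) (FreeMagma.lift (sel X Y e) a'))
        rw [map_mul, mul_eq hB h3, asc_sub2, asc_neg2, T_jo2 hB, phi_kb hB h3 (hcen _), e5]
        abel
      rw [Finset.sum_congr rfl fun e _ => key e, Finset.sum_add_distrib, Finset.sum_add_distrib,
        Finset.sum_neg_distrib, Finset.sum_neg_distrib, h1, h2, h3']
      simp
    intro p q hn hnd hs f hf H hH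
    have hcase : ∀ w : FreeMagma ℕ, (∃ i, w = FreeMagma.of i) ∨ ∃ a b, w = a * b := by
      intro w
      cases w with
      | of i => exact Or.inl ⟨i, rfl⟩
      | mul a b => exact Or.inr ⟨a, b, rfl⟩
    rcases hcase p with ⟨i, rfl⟩ | ⟨a, a', rfl⟩
    · rcases hcase q with ⟨j, rfl⟩ | ⟨b, b', rfl⟩
      · have hi : i ∈ lets (FreeMagma.of i) + lets (FreeMagma.of j) := by
          rw [lets_of, lets_of]; simp
        have hj : j ∈ lets (FreeMagma.of i) + lets (FreeMagma.of j) := by
          rw [lets_of, lets_of]; simp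
        have hij : i ≠ j := by
          rintro rfl
          rw [lets_of, Multiset.nodup_add, Multiset.disjoint_left] at hnd
          exact hnd.2.2 (Multiset.mem_singleton_self _) (Multiset.mem_singleton_self _)
        have step : ∀ i j : ℕ, i ≠ j → i ∈ s → j ∈ s → DA i f → DA j f →
            (∀ e, H (fl i e) = H e) → (∀ e, H (fl j e) = H e) →
            ∑ e ∈ s.powerset, H e (jo (sel X Y e i) (jo (sel X Y e j) (f (sel Y X e)))) =
            ∑ e ∈ s.powerset, H e (f (update (update (sel Y X e) i (jo (X i) (Y i))) j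
              (jo (X j) (Y j)))) := by
          intro i j hij hi hj hfi hfj hHi hHj
          have h1 := letter hB h3 X Y hj hfj (fun e => (H e).comp (joL (sel X Y e i)))
            (fun e => by rw [hHj, sel_fl, update_of_ne hij])
          have h2 := letter hB h3 X Y hi (hfi.upd hij (jo (X j) (Y j))) H hHi
          simp only [AddMonoidHom.comp_apply, joL_apply] at h1
          rw [h1, h2, neg_neg]
        have e1 := step i j hij (hs i hi) (hs j hj) (hf i hi) (hf j hj) (hH i hi) (hH j hj)
        have e2 := step j i hij.symm (hs j hj) (hs i hi) (hf j hj) (hf i hi) (hH j hj) (hH i hi)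
        have e3 : ∀ e, H e (asc (f (sel Y X e)) (FreeMagma.lift (sel X Y e) (FreeMagma.of i))
            (FreeMagma.lift (sel X Y e) (FreeMagma.of j))) =
            H e (jo (sel X Y e i) (jo (sel X Y e j) (f (sel Y X e)))) -
            H e (jo (sel X Y e j) (jo (sel X Y e i) (f (sel Y X e)))) := by
          intro e
          rw [FreeMagma.lift_of, FreeMagma.lift_of, ← map_sub]
          congr 1
          rw [jj hB h3 ((hf i hi).cen _) (sel X Y e j) (sel X Y e i)]
          abel
        rw [Finset.sum_congr rfl fun e _ => e3 e, Finset.sum_sub_distrib, e1, e2, sub_eq_zero]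
        refine Finset.sum_congr rfl fun e _ => ?_
        rw [update_comm hij]
      · have h1 := prod b b' (FreeMagma.of i) (by omega) (by rwa [add_comm])
          (fun i hi => hs i (by rwa [add_comm])) f (fun i hi => hf i (by rwa [add_comm])) H
          (fun i hi => hH i (by rwa [add_comm]))
        have e1 : ∀ e, H e (asc (f (sel Y X e)) (FreeMagma.lift (sel X Y e) (FreeMagma.of i))
            (FreeMagma.lift (sel X Y e) (b * b'))) = - H e (asc (f (sel Y X e))
            (FreeMagma.lift (sel X Y e) (b * b'))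
            (FreeMagma.lift (sel X Y e) (FreeMagma.of i))) := by
          intro e
          rw [← map_neg, s23 hB (f (sel Y X e)) (FreeMagma.lift (sel X Y e) (FreeMagma.of i)),
            neg_neg]
        rw [Finset.sum_congr rfl fun e _ => e1 e, Finset.sum_neg_distrib, h1, neg_zero]
    · exact prod a a' q hn hnd hs f hf H hH

/-- replace letters by Jordan products -/
def rp (X Y : ℕ → B) (U : Multiset ℕ) (v : ℕ → B) : ℕ → B :=
  fun i => if i ∈ U then jo (X i) (Y i) else v i

omit hB h3 in
theorem rp_update (X Y : ℕ → B) (U : Multiset ℕ) (v : ℕ → B) {i : ℕ} (hi : i ∉ U) (a : B) :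
    rp X Y U (update v i a) = update (rp X Y U v) i a := by
  funext j
  by_cases h : j = i
  · subst h
    rw [update_self]
    unfold rp
    rw [if_neg hi, update_self]
  · rw [update_of_ne h]
    unfold rp
    rw [update_of_ne h]

/-- the main sums -/
theorem base_b (X Y : ℕ → B) (s : Finset ℕ) : ∀ w : FreeMagma ℕ, (lets w).Nodup →
    (∀ i ∈ lets w, i ∈ s) → ∀ (f : (ℕ → B) → B), (∀ i ∈ lets w, DA i f) →
    ∀ H : Finset ℕ → B →+ B, (∀ i ∈ lets w, ∀ e, H (fl i e) = H e) →
    ∑ e ∈ s.powerset, H e (FreeMagma.lift (sel X Y e) w * f (sel Y X e)) =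
      ∑ e ∈ s.powerset, H e (f (rp X Y (lets w) (sel Y X e))) := by
  intro w
  induction w using FreeMagma.recOnMul with
  | ih1 i =>
    intro _ hs f hf H hH
    have hi : i ∈ lets (FreeMagma.of i) := by rw [lets_of]; simp
    have h1 := letter hB h3 X Y (hs i hi) (hf i hi) H (hH i hi)
    have e1 : ∀ e, H e (FreeMagma.lift (sel X Y e) (FreeMagma.of i) * f (sel Y X e)) =
        - H e (jo (sel X Y e i) (f (sel Y X e))) := by
      intro e
      rw [FreeMagma.lift_of, ← map_neg, ((hf i hi).cen _).mul_jo hB h3]
    rw [Finset.sum_congr rfl fun e _ => e1 e, Finset.sum_neg_distrib, h1, neg_neg]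
    refine Finset.sum_congr rfl fun e _ => ?_
    congr 2
    funext j
    unfold rp
    by_cases h : j = i
    · subst h
      rw [update_self, if_pos hi]
    · rw [update_of_ne h, if_neg (by rw [lets_of, Multiset.mem_singleton]; exact h)]
  | ih2 p q ihp ihq =>
    intro hnd hs f hf H hH
    rw [lets_mul] at hs hf hH
    rw [lets_mul] at hnd
    have hcen : ∀ v, Cen (f v) := by
      intro v
      have hne : ∃ i, i ∈ lets p := by
        have : ∀ w : FreeMagma ℕ, ∃ i, i ∈ lets w := by
          intro w
          induction w using FreeMagma.recOnMul with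
          | ih1 i => exact ⟨i, by rw [lets_of]; simp⟩
          | ih2 v w ihv ihw =>
            obtain ⟨i, hi⟩ := ihv
            exact ⟨i, by rw [lets_mul]; simp [hi]⟩
        exact this p
      obtain ⟨i, hi⟩ := hne
      exact (hf i (by simp [hi])).cen v
    have ha := base_a hB h3 X Y s (p.length + q.length) p q le_rfl hnd hs f hf H hH
    rw [Multiset.nodup_add, Multiset.disjoint_left] at hnd
    obtain ⟨n1, n2, n3⟩ := hnd
    have e1 : ∀ e, H e (FreeMagma.lift (sel X Y e) (p * q) * f (sel Y X e)) =
        ((H e).comp (AddMonoidHom.mulLeft (FreeMagma.lift (sel X Y e) p)))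
          (FreeMagma.lift (sel X Y e) q * f (sel Y X e)) +
        H e (asc (f (sel Y X e)) (FreeMagma.lift (sel X Y e) p)
          (FreeMagma.lift (sel X Y e) q)) := by
      intro e
      rw [AddMonoidHom.comp_apply, AddMonoidHom.coe_mulLeft, ← map_add]
      congr 1
      rw [map_mul, cyc' hB (FreeMagma.lift (sel X Y e) p) (FreeMagma.lift (sel X Y e) q)
        (f (sel Y X e))]
      unfold asc
      abel
    rw [Finset.sum_congr rfl fun e _ => e1 e, Finset.sum_add_distrib, ha, add_zero]
    have h2 := ihq n2 (fun i hi => hs i (by simp [hi])) f (fun i hi => hf i (by simp [hi]))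
      (fun e => (H e).comp (AddMonoidHom.mulLeft (FreeMagma.lift (sel X Y e) p)))
      (fun i hi e => by
        rw [hH i (by simp [hi]), lift_sel_fl]
        exact fun h => n3 h hi)
    rw [h2]
    have h1 := ihp n1 (fun i hi => hs i (by simp [hi]))
      (fun v => f (rp X Y (lets q) v)) (fun i hi v => by
        have e : (fun a => (fun v => f (rp X Y (lets q) v)) (update v i a)) =
            fun a => f (update (rp X Y (lets q) v) i a) := by
          funext a
          show f (rp X Y (lets q) (update v i a)) = _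
          rw [rp_update X Y (lets q) v (n3 hi)]
        rw [e]
        exact hf i (by simp [hi]) _) H
      (fun i hi => hH i (by simp [hi]))
    simp only [AddMonoidHom.comp_apply, AddMonoidHom.coe_mulLeft]
    rw [h1]
    refine Finset.sum_congr rfl fun e _ => ?_
    congr 2
    funext j
    rw [lets_mul]
    unfold rp
    simp only [Multiset.mem_add]
    by_cases h1 : j ∈ lets q
    · rw [if_pos h1, if_pos (Or.inr h1)]
    · by_cases h2 : j ∈ lets p
      · rw [if_neg h1, if_pos h2, if_pos (Or.inl h2)]
      · rw [if_neg h1, if_neg h2, if_neg (by tauto)]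

omit hB in
theorem pow_two_smul (n : ℕ) (b : B) (h : (2 ^ n) • b = 0) : b = 0 := by
  induction n with
  | zero => rwa [pow_zero, one_smul] at h
  | succ n ih =>
    rw [pow_succ, mul_comm, mul_smul] at h
    exact ih (three2 h3 _ h)

/-- words with letters exactly `s` -/
theorem base_word (s : Finset ℕ) (w : FreeMagma ℕ) (hw : lets w = s.val) {f : (ℕ → B) → B}
    (hf : ∀ i ∈ s, DA i f) (X Y : ℕ → B) :
    ∑ e ∈ s.powerset, FreeMagma.lift (sel X Y e) w * f (sel Y X e) =
      (2 ^ s.card) • f (fun i => if i ∈ s then jo (X i) (Y i) else Y i) := by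
  have h := base_b hB h3 X Y s w (by rw [hw]; exact s.nodup)
    (fun i hi => by rw [hw] at hi; exact hi) f (fun i hi => hf i (by rw [hw] at hi; exact hi))
    (fun _ => AddMonoidHom.id B) (fun _ _ _ => rfl)
  simp only [AddMonoidHom.id_apply] at h
  rw [h, ← Finset.card_powerset, ← Finset.sum_const]
  refine Finset.sum_congr rfl fun e he => ?_
  congr 1
  funext i
  unfold rp sel
  rw [hw]
  by_cases hi : i ∈ s
  · rw [if_pos (show i ∈ s.val from hi), if_pos hi]
  · rw [if_neg (show i ∉ s.val from hi), if_neg hi, if_neg]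
    intro h1
    exact hi (Finset.mem_powerset.1 he h1)

end

end

section
variable {F B : Type} [Field F] [NonUnitalNonAssocRing B] [Module F B] [IsScalarTower F B B]
  [SMulCommClass F B B]
variable (hB : IsAlt B) (h3 : ∀ x : B, x + x + x = 0)
include hB h3

/-- BASE: derivations of arity `n` vanish on Jordan products -/
theorem base (h : MLId F B) : ∃ n : ℕ, ∀ s : Finset ℕ, s.card = n → ∀ f : (ℕ → B) → B,
    (∀ i ∈ s, DA i f) → ∀ v : ℕ → B, (∀ i ∈ s, ∃ a b, v i = jo a b) → f v = 0 := by
  obtain ⟨A, T, c, hT, hc, hid⟩ := h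
  refine ⟨A.card, fun s hs f hf v hv => ?_⟩
  obtain ⟨σ, hσ⟩ : ∃ σ : ℕ → ℕ, Set.BijOn σ A s := by
    have e : A ≃ s := Finset.equivOfCardEq hs.symm
    refine ⟨fun i => if hi : i ∈ A then (e ⟨i, hi⟩ : ℕ) else 0, ?_, ?_, ?_⟩
    · intro i hi
      have hi' : i ∈ A := hi
      simp only [dif_pos hi']
      exact (e ⟨i, hi'⟩).2
    · intro i hi j hj hij
      have hi' : i ∈ A := hi
      have hj' : j ∈ A := hj
      simp only [dif_pos hi', dif_pos hj'] at hij
      have := e.injective (Subtype.ext hij)
      exact congrArg Subtype.val this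
    · intro j hj
      refine ⟨(e.symm ⟨j, hj⟩ : ℕ), (e.symm ⟨j, hj⟩).2, ?_⟩
      simp only [Subtype.coe_eta, Finset.coe_mem, dif_pos, Equiv.apply_symm_apply]
  choose! X hX using hv
  choose! Y hY using hX
  have hlets : ∀ w : FreeMagma ℕ, lets (FreeMagma.map σ w) = (lets w).map σ := by
    intro w
    induction w using FreeMagma.recOnMul with
    | ih1 i => rw [FreeMagma.map_of, lets_of, lets_of, Multiset.map_singleton]
    | ih2 p q ihp ihq => rw [map_mul, lets_mul, lets_mul, ihp, ihq, Multiset.map_add]
  have hlift : ∀ (y : ℕ → B) (w : FreeMagma ℕ),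
      FreeMagma.lift y (FreeMagma.map σ w) = FreeMagma.lift (fun i => y (σ i)) w := by
    intro y w
    induction w using FreeMagma.recOnMul with
    | ih1 i => rw [FreeMagma.map_of, FreeMagma.lift_of, FreeMagma.lift_of]
    | ih2 p q ihp ihq => rw [map_mul, map_mul, map_mul, ihp, ihq]
  have hw : ∀ w ∈ T, lets (FreeMagma.map σ w) = s.val := by
    intro w hw
    rw [hlets, hT w hw]
    have h1 : (A.val.map σ).Nodup := by
      refine Multiset.Nodup.map_on ?_ A.nodup
      intro x hx y hy hxy
      exact hσ.injOn hx hy hxy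
    refine (Multiset.Nodup.ext h1 s.nodup).2 fun j => ?_
    rw [Multiset.mem_map]
    constructor
    · rintro ⟨i, hi, rfl⟩
      exact hσ.mapsTo hi
    · intro hj
      obtain ⟨i, hi, hij⟩ := hσ.surjOn hj
      exact ⟨i, hi, hij⟩
  set Y' : ℕ → B := fun i => if i ∈ s then Y i else v i with hY'
  have hZ : (fun i => if i ∈ s then jo (X i) (Y' i) else Y' i) = v := by
    funext i
    by_cases hi : i ∈ s
    · rw [if_pos hi, hY']
      simp only [if_pos hi]
      exact (hY i hi).symm
    · rw [if_neg hi, hY']
      simp only [if_neg hi]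
  have key : ∑ w ∈ T, c w • ((2 ^ s.card) • f v) = 0 := by
    have h1 : ∀ w ∈ T, c w • ((2 ^ s.card) • f v) =
        ∑ e ∈ s.powerset, (c w • FreeMagma.lift (fun i => sel X Y' e (σ i)) w) *
          f (sel Y' X e) := by
      intro w hwT
      have h2 := base_word hB h3 s (FreeMagma.map σ w) (hw w hwT) hf X Y'
      rw [hZ] at h2
      rw [← h2, Finset.smul_sum]
      refine Finset.sum_congr rfl fun e _ => ?_
      rw [hlift, smul_mul_assoc]
    rw [Finset.sum_congr rfl h1, Finset.sum_comm]
    refine Finset.sum_eq_zero fun e _ => ?_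
    rw [← Finset.sum_mul, hid, zero_mul]
  rw [← Finset.sum_smul] at key
  have h4 : (2 ^ s.card) • f v = 0 := by
    rcases smul_eq_zero.1 key with h5 | h5
    · exact absurd h5 hc
    · exact h5
  exact pow_two_smul h3 _ _ h4

end

end Pool.Agent.TP.RC
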