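import Pool.Agent.Helper99_TP3.BaseC
import Pool.Agent.Helper19_TP3.Nat

/-!
# MP_ce3ba7_al, module C3-C (helper99): descent for Lie central natural derivations
-/

set_option autoImplicit false
set_option linter.unusedSectionVars false

namespace Pool.Agent.TP.RC

open Pool.Agent.TP Pool.Agent.TP.H67 Pool.Agent.TP.B3 Function
open Pool.Agent.TP.NF (IsNat)

section
variable {B : Type} [NonUnitalNonAssocRing B]

theorem ZD.neg {g : B → B} (h : ZD g) : ZD (fun a => - g a) where
  add a b := by simp only [h.add]; abel
  der a b := by simp only [h.der, jo_neg2]; abel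
  cen a b := by simp only [kb_neg1, h.cen a b, neg_zero]

theorem Cen.neg {c : B} (h : Cen c) : Cen (-c) := by
  intro b
  rw [kb_neg1, h, neg_zero]

theorem Cen.add {c d : B} (h : Cen c) (h' : Cen d) : Cen (c + d) := by
  intro b
  rw [kb_add1, h, h', add_zero]

/-- independence of the letters from `N` on -/
def Dep (N : ℕ) (f : (ℕ → B) → B) : Prop := ∀ t, N ≤ t → ∀ (v : ℕ → B) (a : B), f (update v t a) = f v

theorem Dep.mono {N M : ℕ} (h : N ≤ M) {f : (ℕ → B) → B} (hf : Dep N f) : Dep M f :=
  fun t ht => hf t (h.trans ht)

section
variable (hB : IsAlt B) (h3 : ∀ x : B, x + x + x = 0)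
include hB h3

theorem kb_jo (a a' b : B) : kb (jo a a') b = jo a (kb a' b) + jo a' (kb a b) := by
  rw [kb_skew, ad_jo hB h3, kb_skew b a, kb_skew b a', jo_neg1, jo_neg2, jo_comm (kb a b)]
  abel

theorem ZD.kb {g : B → B} (h : ZD g) (b : B) : ZD (fun a => g (H67.kb a b)) where
  add a a' := by simp only [kb_add1, h.add]
  der a a' := by
    simp only [kb_jo hB h3, h.add, h.der]
    have := h.alt hB h3 a' a b
    rw [this]
    abel
  cen a := h.cen _

theorem ZD.zero (h : B → B) (hg : ZD h) : h 0 = 0 := by
  have := hg.add 0 0
  rw [add_zero] at this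
  exact left_eq_add.mp this

theorem ZD.map_neg {g : B → B} (h : ZD g) (a : B) : g (-a) = - g a := by
  have h1 := h.add a (-a)
  rw [add_neg_cancel, ZD.zero hB h3 g h] at h1
  exact (neg_eq_of_add_eq_zero_right h1.symm).symm

theorem ZD.kb' {g : B → B} (h : ZD g) (b : B) : ZD (fun a => g (H67.kb b a)) := by
  have e : (fun a => g (H67.kb b a)) = fun a => - g (H67.kb a b) := by
    funext a
    rw [kb_skew b a, h.map_neg hB h3]
  rw [e]
  exact (h.kb hB h3 b).neg

/-- `a ↦ [a,y] o c` -/
theorem zd_e {c : B} (hc : Cen c) (h : ∀ a b : B, Cen (jo (H67.kb a b) c)) (y : B) :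
    ZD (fun a => jo (H67.kb a y) c) where
  add a b := by simp only [kb_add1, jo_add1]
  der a b := l2 hB h3 hc a b y
  cen a := h a y

/-- `a ↦ T(c,a,[y,w])` -/
theorem zd_phi {c : B} (hc : Cen c) (y w : B) : ZD (fun a => asc c a (H67.kb y w)) where
  add a b := by simp only [asc_add2]
  der a b := T_jo2 hB a b c (H67.kb y w)
  cen a := phi_cen hB h3 hc a y w

/-- `a ↦ T(c,a,q)` for good `c` -/
theorem zd_asc {c : B} (hc : Good c) (q : B) : ZD (fun a => asc c a q) where
  add a b := by simp only [asc_add2]
  der a b := T_jo2 hB a b c q
  cen a := hc.asc_cen hB h3 a q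

end

end

section
variable (F : Type) [Field F] {B : Type} [NonUnitalNonAssocRing B] [Module F B]
  [IsScalarTower F B B] [SMulCommClass F B B] (x : ℕ → B)

/-- natural functions which are Lie central derivations in the letters of `s` -/
structure MZ (s : Finset ℕ) (f : (ℕ → B) → B) : Prop where
  nat : IsNat F x f
  der : ∀ i ∈ s, DA i f

/-- all Lie central natural derivations of arity `k` vanish -/
def VanZ (k : ℕ) : Prop := ∀ s : Finset ℕ, s.card = k → ∀ f : (ℕ → B) → B, MZ F x s f →
  ∀ v, f v = 0

end

section
variable {F : Type} [Field F] {B : Type} [NonUnitalNonAssocRing B] [Module F B]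
  [IsScalarTower F B B] [SMulCommClass F B B] {x : ℕ → B}

theorem VanZ.succ {k : ℕ} (h : VanZ F x k) : VanZ F x (k + 1) := by
  intro s hs f hf v
  obtain ⟨i, hi⟩ : s.Nonempty := by
    rw [← Finset.card_pos]; omega
  exact h (s.erase i) (by rw [Finset.card_erase_of_mem hi, hs]; rfl) f
    ⟨hf.nat, fun j hj => hf.der j (Finset.mem_of_mem_erase hj)⟩ v

variable (hrel : RelFree F B x) (hB : IsAlt B) (h3 : ∀ x : B, x + x + x = 0)
include hrel hB h3

/-- hypotheses for the vanishing of `phi` -/
structure Pre (F : Type) [Field F] {B : Type} [NonUnitalNonAssocRing B] [Module F B]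
    [IsScalarTower F B B] [SMulCommClass F B B] (x : ℕ → B) (s : Finset ℕ) (N : ℕ)
    (f : (ℕ → B) → B) : Prop where
  nat : IsNat F x f
  dep : Dep N f
  lt : ∀ i ∈ s, i < N
  cen : ∀ v, Cen (f v)
  add : ∀ i ∈ s, ∀ v a b, f (update v i (a + b)) = f (update v i a) + f (update v i b)
  bra : ∀ v a b, jo (H67.kb a b) (f v) = 0
  defect : ∀ i ∈ s, ∀ v a b y w, jo (H67.kb y w) (f (update v i (jo a b)) -
    jo a (f (update v i b)) - jo b (f (update v i a))) = 0

theorem Pre.good {k : ℕ} (hV : VanZ F x (k + 1)) {s : Finset ℕ} (hs : s.card = k) {N : ℕ}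
    {f : (ℕ → B) → B} (h : Pre F x s N f) (v : ℕ → B) : Good (f v) := by
  have hN : N ∉ s := fun hh => lt_irrefl _ (h.lt N hh)
  set q : (ℕ → B) → B := fun v => asc (f v) (v N) (H67.kb (v (N + 1)) (v (N + 2))) with hq
  have key : ∀ i ∈ s, ∀ v z z' y w, asc (f (update v i z')) z (H67.kb y w) =
      - asc (f (update v i z)) z' (H67.kb y w) := by
    intro i hi v z z' y w
    have h1 := h.defect i hi v z z' y w
    rw [jo_sub2, jo_sub2, h.bra, jj hB h3 (h.cen _) (H67.kb y w) z,
      jj hB h3 (h.cen _) (H67.kb y w) z', h.bra, h.bra, jo_zero2, jo_zero2] at h1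
    rw [← sub_eq_zero]
    rw [← h1]
    abel
  have hz : ∀ v, q v = 0 := by
    refine hV (insert N s) (by rw [Finset.card_insert_of_notMem hN, hs]) q ⟨?_, ?_⟩
    · exact h.nat.asc (IsNat.proj N) ((IsNat.proj (N + 1)).kb (IsNat.proj (N + 2)))
    · intro i hi v
      rw [Finset.mem_insert] at hi
      rcases hi with rfl | hi
      · have e : (fun a => q (update v i a)) = fun a => asc (f v) a
            (H67.kb (v (i + 1)) (v (i + 2))) := by
          funext a
          show asc (f (update v i a)) (update v i a i) (H67.kb (update v i a (i + 1))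
            (update v i a (i + 2))) = _
          rw [h.dep i le_rfl, update_self, update_of_ne (by omega), update_of_ne (by omega)]
        rw [e]
        exact zd_phi hB h3 (h.cen v) _ _
      · have hiN := h.lt i hi
        have e : (fun a => q (update v i a)) = fun a => - asc (f (update v i (v N))) a
            (H67.kb (v (N + 1)) (v (N + 2))) := by
          funext a
          show asc (f (update v i a)) (update v i a N) (H67.kb (update v i a (N + 1))
            (update v i a (N + 2))) = _
          rw [update_of_ne (by omega), update_of_ne (by omega), update_of_ne (by omega),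
            key i hi v (v N) a]
        rw [e]
        exact (zd_phi hB h3 (h.cen _) _ _).neg
  refine ⟨h.cen v, fun a b => h.bra v a b, fun a y w => ?_⟩
  have h1 := hz (update (update (update v N a) (N + 1) y) (N + 2) w)
  rw [hq] at h1
  simp only [update_self] at h1
  rw [h.dep _ (by omega), h.dep _ (by omega), h.dep _ (by omega), update_of_ne (by omega),
    update_of_ne (by omega), update_self, update_of_ne (by omega), update_self] at h1
  exact h1

/-- first steps of the descent -/
theorem MZ.pre {k : ℕ} (hk : 1 ≤ k) (hV : VanZ F x (k + 1)) {s : Finset ℕ} (hs : s.card = k)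
    {N : ℕ} {f : (ℕ → B) → B} (h : MZ F x s f) (hdep : Dep N f) (hlt : ∀ i ∈ s, i < N) :
    Pre F x s N f := by
  have hN : N ∉ s := fun hh => lt_irrefl _ (hlt N hh)
  obtain ⟨i0, hi0⟩ : s.Nonempty := by
    rw [← Finset.card_pos]; omega
  -- step 1
  have s1 : ∀ i ∈ s, ∀ v a b, f (update v i (H67.kb a b)) = 0 := by
    intro i hi
    have hiN := hlt i hi
    set g : (ℕ → B) → B := fun v => f (update v i (H67.kb (v i) (v N))) with hg
    have hz : ∀ v, g v = 0 := by
      refine hV (insert N s) (by rw [Finset.card_insert_of_notMem hN, hs]) g ⟨?_, ?_⟩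
      · exact h.nat.upd hrel ((IsNat.proj i).kb (IsNat.proj N)) i
      · intro j hj v
        rw [Finset.mem_insert] at hj
        rcases hj with rfl | hj
        · have e : (fun a => g (update v j a)) = fun a => f (update v i (H67.kb (v i) a)) := by
            funext a
            show f (update (update v j a) i (H67.kb (update v j a i) (update v j a j))) = _
            rw [update_self, update_of_ne (by omega), update_comm (by omega), hdep j le_rfl]
          rw [e]
          exact (h.der i hi v).kb' hB h3 (v i)
        · have hjN := hlt j hj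
          by_cases hji : j = i
          · subst hji
            have e : (fun a => g (update v j a)) =
                fun a => f (update v j (H67.kb a (v N))) := by
              funext a
              show f (update (update v j a) j (H67.kb (update v j a j) (update v j a N))) = _
              rw [update_self, update_of_ne (by omega), update_idem]
            rw [e]
            exact (h.der j hj v).kb hB h3 (v N)
          · have e : (fun a => g (update v j a)) =
                fun a => f (update (update v i (H67.kb (v i) (v N))) j a) := by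
              funext a
              show f (update (update v j a) i (H67.kb (update v j a i) (update v j a N))) = _
              rw [update_of_ne (by omega), update_of_ne (by omega), update_comm hji]
            rw [e]
            exact h.der j hj _
    intro v a b
    have h1 := hz (update (update v i a) N b)
    rw [hg] at h1
    simp only [update_self] at h1
    rw [update_of_ne (by omega), update_self, update_comm (by omega), hdep N le_rfl,
      update_idem] at h1
    exact h1
  -- step 2
  have s2 : ∀ v a b d, jo (H67.kb (H67.kb a b) d) (f v) = 0 := by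
    intro v a b d
    have h1 := (h.der i0 hi0 v).alt hB h3 (v i0) (H67.kb a b) d
    simp only [s1 i0 hi0, jo_zero2, update_eq_self] at h1
    exact (neg_eq_zero.mp h1.symm)
  have hcen : ∀ v, Cen (f v) := fun v => (h.der i0 hi0).cen v
  have s2' : ∀ v a b, Cen (jo (H67.kb a b) (f v)) := by
    intro v a b d
    rw [kb_skew, ad_jo hB h3, (hcen v).r, jo_zero2, add_zero, kb_skew d, jo_neg1, s2 v a b d,
      neg_zero, neg_zero]
  -- step 3
  have s3 : ∀ v a b, jo (H67.kb a b) (f v) = 0 := by
    set g : (ℕ → B) → B := fun v => jo (H67.kb (v N) (v (N + 1))) (f v) with hg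
    have hz : ∀ v, g v = 0 := by
      refine hV (insert N s) (by rw [Finset.card_insert_of_notMem hN, hs]) g ⟨?_, ?_⟩
      · exact ((IsNat.proj N).kb (IsNat.proj (N + 1))).jo h.nat
      · intro j hj v
        rw [Finset.mem_insert] at hj
        rcases hj with rfl | hj
        · have e : (fun a => g (update v j a)) = fun a => jo (H67.kb a (v (j + 1))) (f v) := by
            funext a
            show jo (H67.kb (update v j a j) (update v j a (j + 1))) (f (update v j a)) = _
            rw [update_self, update_of_ne (by omega), hdep j le_rfl]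
          rw [e]
          exact zd_e hB h3 (hcen v) (s2' v) _
        · have hjN := hlt j hj
          have e : (fun a => g (update v j a)) = fun a => - jo (H67.kb a (v (N + 1)))
              (f (update v j (v N))) := by
            funext a
            show jo (H67.kb (update v j a N) (update v j a (N + 1))) (f (update v j a)) = _
            rw [update_of_ne (by omega), update_of_ne (by omega)]
            exact (h.der j hj v).alt hB h3 (v N) a (v (N + 1))
          rw [e]
          exact (zd_e hB h3 (hcen _) (s2' _) _).neg
    intro v a b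
    have h1 := hz (update (update v N a) (N + 1) b)
    rw [hg] at h1
    simp only [update_self] at h1
    rw [hdep _ (by omega), hdep _ (by omega), update_of_ne (by omega), update_self] at h1
    exact h1
  refine ⟨h.nat, hdep, hlt, hcen, fun i hi v a b => (h.der i hi v).add a b, s3, ?_⟩
  intro i hi v a b y w
  have h1 : f (update v i (jo a b)) = jo a (f (update v i b)) + jo b (f (update v i a)) :=
    (h.der i hi v).der a b
  rw [h1]
  have : jo a (f (update v i b)) + jo b (f (update v i a)) - jo a (f (update v i b)) -
      jo b (f (update v i a)) = 0 := by abel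
  rw [this, jo_zero2]

end

end Pool.Agent.TP.RC
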