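import Pool.Agent.Helper99_TP3.Desc

/-!
# MP_ce3ba7_al, module C3-C (helper99): end of the descent
-/

set_option autoImplicit false
set_option linter.unusedSectionVars false

namespace Pool.Agent.TP.RC

open Pool.Agent.TP Pool.Agent.TP.H67 Pool.Agent.TP.B3 Function
open Pool.Agent.TP.NF (IsNat)

section
variable {B : Type} [NonUnitalNonAssocRing B]

/-- `T(...T(T(f,a_1,b_1),a_2,b_2)...,a_m,b_m)` with fresh letters from `N` on -/
def cm (N : ℕ) (f : (ℕ → B) → B) : ℕ → (ℕ → B) → B
  | 0 => f
  | m + 1 => fun v => asc (cm N f m v) (v (N + 2 * m)) (v (N + 2 * m + 1))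

/-- span of the products `t o c_j(w)`, `j < m` -/
def Sm (N : ℕ) (f : (ℕ → B) → B) (m : ℕ) : AddSubgroup B :=
  AddSubgroup.closure {r | ∃ t w, ∃ j < m, r = jo t (cm N f j w)}

theorem cm_dep {N : ℕ} {f : (ℕ → B) → B} (h : Dep N f) : ∀ m, Dep (N + 2 * m) (cm N f m) := by
  intro m
  induction m with
  | zero => exact h
  | succ m ih =>
    intro t ht v a
    show asc (cm N f m (update v t a)) (update v t a (N + 2 * m)) (update v t a (N + 2 * m + 1)) = _
    rw [ih t (by omega), update_of_ne (by omega), update_of_ne (by omega)]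
    rfl

theorem cm_val {N : ℕ} {f : (ℕ → B) → B} (h : Dep N f) (m : ℕ) (v : ℕ → B) (a b : B) :
    asc (cm N f m v) a b = cm N f (m + 1)
      (update (update v (N + 2 * m) a) (N + 2 * m + 1) b) := by
  show _ = asc (cm N f m (update (update v (N + 2 * m) a) (N + 2 * m + 1) b))
    (update (update v (N + 2 * m) a) (N + 2 * m + 1) b (N + 2 * m))
    (update (update v (N + 2 * m) a) (N + 2 * m + 1) b (N + 2 * m + 1))
  rw [cm_dep h m _ (by omega), cm_dep h m _ (by omega), update_self,
    update_of_ne (by omega), update_self]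

theorem Sm_mem {N : ℕ} {f : (ℕ → B) → B} {m j : ℕ} (hj : j < m) (t : B) (w : ℕ → B) :
    jo t (cm N f j w) ∈ Sm N f m :=
  AddSubgroup.subset_closure ⟨t, w, j, hj, rfl⟩

/-- induction on `Sm` -/
theorem Sm_ind {N : ℕ} {f : (ℕ → B) → B} {m : ℕ} (φ : B →+ B)
    (h : ∀ t w, ∀ j < m, φ (jo t (cm N f j w)) = 0) (r : B) (hr : r ∈ Sm N f m) : φ r = 0 := by
  unfold Sm at hr
  induction hr using AddSubgroup.closure_induction with
  | mem r hr =>
    obtain ⟨t, w, j, hj, rfl⟩ := hr
    exact h t w j hj
  | zero => exact map_zero φ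
  | add a b _ _ ha hb => rw [map_add, ha, hb, add_zero]
  | neg a _ ha => rw [_root_.map_neg, ha, neg_zero]

theorem Sm_asc {N : ℕ} {f : (ℕ → B) → B} (hB : IsAlt B) (h : Dep N f) {m : ℕ} (r : B)
    (hr : r ∈ Sm N f m) (a b : B) : asc r a b ∈ Sm N f (m + 1) := by
  unfold Sm at hr
  induction hr using AddSubgroup.closure_induction with
  | mem r hr =>
    obtain ⟨t, w, j, hj, rfl⟩ := hr
    rw [T_jo1 hB, jo_comm (cm N f j w) (asc t a b), cm_val h]
    exact add_mem (Sm_mem (m := m + 1) (Nat.succ_lt_succ hj) _ _)
      (Sm_mem (m := m + 1) (Nat.lt_succ_of_lt hj) _ _)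
  | zero => rw [asc_zero1]; exact zero_mem _
  | add r r' _ _ ha hb => rw [asc_add1]; exact add_mem ha hb
  | neg r _ ha => rw [asc_neg1]; exact neg_mem ha

end

section
variable {F : Type} [Field F] {B : Type} [NonUnitalNonAssocRing B] [Module F B]
  [IsScalarTower F B B] [SMulCommClass F B B] {x : ℕ → B}

/-- the induction hypothesis -/
structure Ph (F : Type) [Field F] {B : Type} [NonUnitalNonAssocRing B] [Module F B]
    [IsScalarTower F B B] [SMulCommClass F B B] (x : ℕ → B) (s : Finset ℕ) (N : ℕ)
    (f : (ℕ → B) → B) (m : ℕ) : Prop where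
  nat : IsNat F x (cm N f m)
  add : ∀ i ∈ s, ∀ v a b, cm N f m (update v i (a + b)) =
    cm N f m (update v i a) + cm N f m (update v i b)
  good : ∀ v, Good (cm N f m v)
  defect : ∀ i ∈ s, ∀ v a b, cm N f m (update v i (jo a b)) -
    jo a (cm N f m (update v i b)) - jo b (cm N f m (update v i a)) ∈ Sm N f m

variable (hrel : RelFree F B x) (hB : IsAlt B) (h3 : ∀ x : B, x + x + x = 0)
include hrel hB h3

theorem step5 {k : ℕ} (hV : VanZ F x (k + 1)) {s : Finset ℕ} (hs : s.card = k)
    {N : ℕ} {f : (ℕ → B) → B} (h : Pre F x s N f)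
    (hd0 : ∀ i ∈ s, ∀ v a b, f (update v i (jo a b)) =
      jo a (f (update v i b)) + jo b (f (update v i a))) :
    ∀ m, ∀ j ≤ m, Ph F x s N f j := by
  have hdep := h.dep
  intro m
  induction m with
  | zero =>
    intro j hj
    obtain rfl : j = 0 := by omega
    refine ⟨h.nat, h.add, fun v => h.good hrel hB h3 hV hs v, ?_⟩
    intro i hi v a b
    have : cm N f 0 (update v i (jo a b)) - jo a (cm N f 0 (update v i b)) -
        jo b (cm N f 0 (update v i a)) = 0 := by
      show f (update v i (jo a b)) - jo a (f (update v i b)) - jo b (f (update v i a)) = 0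
      rw [hd0 i hi]
      abel
    rw [this]
    exact zero_mem _
  | succ m ih =>
    intro j hj
    rcases Nat.lt_or_ge j (m + 1) with hj' | hj'
    · exact ih j (by omega)
    obtain rfl : j = m + 1 := by omega
    clear hj hj'
    have hm := ih m le_rfl
    set X := N + 2 * (m + 1) with hX
    have hXs : X ∉ s := fun hh => by
      have := h.lt _ hh
      omega
    have hval : ∀ v, cm N f (m + 1) v = asc (cm N f m v) (v (N + 2 * m)) (v (N + 2 * m + 1)) :=
      fun v => rfl
    have hdm : Dep X (cm N f (m + 1)) := cm_dep hdep (m + 1)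
    have hnat : IsNat F x (cm N f (m + 1)) :=
      hm.nat.asc (IsNat.proj (N + 2 * m)) (IsNat.proj (N + 2 * m + 1))
    have hupd : ∀ i ∈ s, ∀ v a, cm N f (m + 1) (update v i a) =
        asc (cm N f m (update v i a)) (v (N + 2 * m)) (v (N + 2 * m + 1)) := by
      intro i hi v a
      have := h.lt i hi
      rw [hval, update_of_ne (by omega), update_of_ne (by omega)]
    have hadd : ∀ i ∈ s, ∀ v a b, cm N f (m + 1) (update v i (a + b)) =
        cm N f (m + 1) (update v i a) + cm N f (m + 1) (update v i b) := by
      intro i hi v a b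
      rw [hupd i hi, hupd i hi, hupd i hi, hm.add i hi, asc_add1]
    have hcen : ∀ v, Cen (cm N f (m + 1) v) := fun v => (hm.good v).asc_cen hB h3 _ _
    have hdef : ∀ i ∈ s, ∀ v a b, cm N f (m + 1) (update v i (jo a b)) -
        jo a (cm N f (m + 1) (update v i b)) - jo b (cm N f (m + 1) (update v i a)) ∈
        Sm N f (m + 1) := by
      intro i hi v a b
      have h1 := Sm_asc hB hdep _ (hm.defect i hi v a b) (v (N + 2 * m)) (v (N + 2 * m + 1))
      rw [asc_sub1, asc_sub1, T_jo1 hB, T_jo1 hB] at h1
      rw [hupd i hi, hupd i hi, hupd i hi]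
      have h2 := add_mem (add_mem h1 (Sm_mem (N := N) (f := f) (Nat.lt_succ_self m)
        (asc a (v (N + 2 * m)) (v (N + 2 * m + 1))) (update v i b)))
        (Sm_mem (N := N) (f := f) (Nat.lt_succ_self m)
        (asc b (v (N + 2 * m)) (v (N + 2 * m + 1))) (update v i a))
      convert h2 using 1
      rw [jo_comm (asc a (v (N + 2 * m)) (v (N + 2 * m + 1))),
        jo_comm (asc b (v (N + 2 * m)) (v (N + 2 * m + 1)))]
      abel
    -- (5a)
    have a5 : ∀ i ∈ s, ∀ v z z' y w q,
        jo (H67.kb y w) (asc (cm N f m (update v i z')) z q) =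
        - jo (H67.kb y w) (asc (cm N f m (update v i z)) z' q) := by
      intro i hi v z z' y w q
      have h1 : kf (cm N f m (update v i (jo z z'))) q y w = 0 := by
        rw [← phi_kf hB h3 (hm.good _).cen]
        exact (hm.good _).phi q y w
      have h2 : kf (cm N f m (update v i (jo z z')) - jo z (cm N f m (update v i z')) -
          jo z' (cm N f m (update v i z))) q y w = 0 := by
        refine Sm_ind (AddMonoidHom.mk' (fun r => kf r q y w)
          (fun a b => kf_add1 hB h3 a b q y w)) ?_ _ (hm.defect i hi v z z')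
        intro t w' j hj
        show kf (jo t (cm N f j w')) q y w = 0
        rw [((ih j (by omega)).good w').l4a hB h3, cm_val hdep,
          ((ih (j + 1) (by omega)).good _).bra, neg_zero]
      rw [sub_eq_add_neg, sub_eq_add_neg, kf_add1 hB h3, kf_add1 hB h3, kf_neg1 hB h3,
        kf_neg1 hB h3, h1, (hm.good _).l4a hB h3, (hm.good _).l4a hB h3, zero_add, neg_neg,
        neg_neg] at h2
      exact eq_neg_of_add_eq_zero_left h2
    -- Lambda
    have hL : ∀ v a b, jo (H67.kb a b) (cm N f (m + 1) v) = 0 := by
      have hLc : ∀ v p q a b, Cen (jo (H67.kb a b) (asc (cm N f m v) p q)) := by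
        intro v p q a b d
        have h1 := (hm.good v).l4b hB h3 a b p q
        have h2 : jo (H67.kb a b) (asc (cm N f m v) p q) =
            - jo (cm N f m v) (asc (H67.kb a b) p q) := by rw [h1, neg_neg]
        rw [h2, kb_neg1, kb_skew, ad_jo hB h3, (hm.good v).cen.r, jo_zero1, zero_add,
          jo_comm, (hm.good v).bra, neg_zero, neg_zero]
      set g : (ℕ → B) → B := fun v => jo (H67.kb (v X) (v (X + 1))) (cm N f (m + 1) v) with hg
      have hz : ∀ v, g v = 0 := by
        refine hV (insert X s) (by rw [Finset.card_insert_of_notMem hXs, hs]) g ⟨?_, ?_⟩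
        · exact ((IsNat.proj X).kb (IsNat.proj (X + 1))).jo hnat
        · intro j hj v
          rw [Finset.mem_insert] at hj
          rcases hj with hj | hj
          · have e : (fun a => g (update v j a)) = fun a => jo (H67.kb a (v (X + 1)))
                (cm N f (m + 1) v) := by
              funext a
              rw [hj]
              show jo (H67.kb (update v X a X) (update v X a (X + 1)))
                (cm N f (m + 1) (update v X a)) = _
              rw [update_self, update_of_ne (by omega), hdm X le_rfl]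
            rw [e]
            exact zd_e hB h3 (hcen v) (fun a b => hLc v _ _ a b) _
          · have hjN := h.lt j hj
            have e : (fun a => g (update v j a)) = fun a => jo (H67.kb a (v (X + 1)))
                (asc (cm N f m (update v j (v (N + 2 * m)))) (v X) (v (N + 2 * m + 1))) := by
              funext a
              show jo (H67.kb (update v j a X) (update v j a (X + 1)))
                (cm N f (m + 1) (update v j a)) = _
              rw [hupd j hj, update_of_ne (by omega), update_of_ne (by omega),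
                a5 j hj v (v (N + 2 * m)) a, (zd_asc hB h3 (hm.good _) _).alt hB h3, neg_neg]
            rw [e]
            exact zd_e hB h3 ((hm.good _).asc_cen hB h3 _ _) (hLc _ _ _) _
      intro v a b
      have h1 := hz (update (update v X a) (X + 1) b)
      rw [hg] at h1
      simp only [update_self] at h1
      rw [hdm _ (by omega), hdm _ (by omega), update_of_ne (by omega), update_self] at h1
      exact h1
    have hpre : Pre F x s X (cm N f (m + 1)) := by
      refine ⟨hnat, hdm, fun i hi => (h.lt i hi).trans_le (by omega), hcen, hadd, hL, ?_⟩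
      intro i hi v a b y w
      refine Sm_ind (joL (H67.kb y w)) ?_ _ (hdef i hi v a b)
      intro t w' j hj
      exact ((ih j (by omega)).good w').jot hB h3 y w t
    exact ⟨hnat, hadd, fun v => hpre.good hrel hB h3 hV hs v, hdef⟩

end

end Pool.Agent.TP.RC
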