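import Pool.Agent.Helper50_TP3.Base3

/-!
# MP_ce3ba7_al, module C3-C (helper99): elementwise part

Identities for Lie central elements of an alternative algebra of characteristic 3.
-/

set_option autoImplicit false
set_option linter.unusedSectionVars false

namespace Pool.Agent.TP.RC

open Pool.Agent.TP Pool.Agent.TP.H67 Pool.Agent.TP.B3

variable {B : Type} [NonUnitalNonAssocRing B]

/-- Lie central elements -/
def Cen (c : B) : Prop := ∀ b : B, kb c b = 0

/-- good elements -/
structure Good (c : B) : Prop where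
  cen : Cen c
  bra : ∀ x y : B, jo (kb x y) c = 0
  phi : ∀ x y w : B, asc c x (kb y w) = 0

theorem Cen.r {c : B} (h : Cen c) (b : B) : kb b c = 0 := by
  rw [kb_skew, h b, neg_zero]

theorem Cen.comm {c : B} (h : Cen c) (b : B) : c * b = b * c := sub_eq_zero.mp (h b)

section
variable (hB : IsAlt B) (h3 : ∀ x : B, x + x + x = 0)
include hB h3

theorem eq0 {x : B} (h : x + x = 0) : x = 0 := by
  have := h3 x
  rwa [h, zero_add] at this

theorem Cen.jo_mul {c : B} (h : Cen c) (b : B) : jo b c = - (b * c) := by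
  have e : b * c = c * b := (h.comm b).symm
  rw [jo, ← e, n2 h3]

theorem Cen.mul_jo {c : B} (h : Cen c) (b : B) : b * c = - jo b c := by
  rw [h.jo_mul hB h3, neg_neg]

/-- product in terms of `jo` and `kb` -/
theorem mul_eq (a b : B) : a * b = - jo a b - kb a b := by
  have h := h3 (a * b)
  have : a * b - (- jo a b - kb a b) = a * b + a * b + a * b := by
    unfold jo kb; abel
  rw [← sub_eq_zero, this, h]

theorem phi_kf {c : B} (h : Cen c) (x y w : B) : asc c x (kb y w) = kf c x y w := by
  have h1 := F1 hB c x y w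
  rw [h x, asc_zero1, zero_add, ← cyc hB (kb y w) c x] at h1
  exact h1.symm

theorem phi_kb {c : B} (h : Cen c) (x y w : B) : kb x (asc c y w) = asc c x (kb y w) := by
  rw [phi_kf hB h3 h, F2' hB h3, h, h x, asc_zero1, sub_zero, sub_zero]

theorem phi_swap {c : B} (h : Cen c) (x y w : B) : asc c y (kb x w) = - asc c x (kb y w) := by
  rw [phi_kf hB h3 h, phi_kf hB h3 h, kf23 hB]

theorem phi_swap' {c : B} (x y w : B) : asc c x (kb w y) = - asc c x (kb y w) := by
  rw [kb_skew w y, asc_neg3]

theorem phi_cyc {c : B} (h : Cen c) (x y w : B) : asc c y (kb w x) = asc c x (kb y w) := by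
  rw [phi_swap' hB h3, phi_swap hB h3 h, neg_neg]

theorem psi_zero {c : B} (h : Cen c) (x y v w : B) : asc c (kb x y) (kb v w) = 0 := by
  have s1 : ∀ a b u v : B, asc c (kb b a) (kb u v) = - asc c (kb a b) (kb u v) := by
    intro a b u v
    rw [kb_skew b a, asc_neg2]
  have s2 : ∀ a b u v : B, asc c (kb a b) (kb v u) = - asc c (kb a b) (kb u v) := by
    intro a b u v
    rw [kb_skew v u, asc_neg3]
  have s3 : ∀ a b u v : B, asc c (kb u v) (kb a b) = - asc c (kb a b) (kb u v) := by
    intro a b u v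
    exact s23 hB c (kb a b) (kb u v)
  have e : ∀ a b u v : B, asc c (kb a b) (kb u v) = asc c u (kb v (kb a b)) := by
    intro a b u v
    exact (phi_cyc hB h3 h (kb a b) u v).symm
  have bi : ∀ a b u v : B, asc c (kb a b) (kb u v) + asc c (kb b v) (kb u a) +
      asc c (kb v a) (kb u b) = 0 := by
    intro a b u v
    rw [e, e, e, ← asc_add3, ← asc_add3]
    have hj : kb v (kb a b) + kb a (kb b v) + kb b (kb v a) = 0 := by
      have := jacobi hB h3 a b v
      rw [kb_skew v (kb a b), kb_skew a (kb b v), kb_skew b (kb v a)]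
      rw [← neg_zero, ← this]
      abel
    rw [hj, asc_zero3]
  have b1 := bi x y v w
  have b2 := bi x y w v
  rw [s2 x y v w, s3 w x y v, s2 w x v y, neg_neg, s3 w y v x, s1 y w v x, neg_neg] at b2
  apply eq0 hB h3
  linear_combination (norm := abel) b1 - b2

/-- values of `phi` are Lie central -/
theorem phi_cen {c : B} (h : Cen c) (x y w : B) : Cen (asc c x (kb y w)) := by
  intro v
  rw [kb_skew, phi_kb hB h3 h, ← phi_cyc hB h3 h, ← phi_cyc hB h3 h, psi_zero hB h3 h, neg_zero]

theorem phi_of_cen {c x : B} (h : Cen c) (hx : Cen x) (y w : B) : asc c x (kb y w) = 0 := by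
  rw [← phi_kb hB h3 h, hx]

/-- `x ↦ [x,y] o c` is a derivation -/
theorem l2 {c : B} (h : Cen c) (x x' y : B) : jo (kb (jo x x') y) c =
    jo x (jo (kb x' y) c) + jo x' (jo (kb x y) c) := by
  have a1 : ∀ u z : B, jo (jo u z) c = jo u (jo z c) + asc u z c := by
    intro u z
    have := A3 hB h3 u z c
    rw [h.r, kb_zero2, zero_add] at this
    rw [← this]; abel
  have e : kb (jo x x') y = jo x (kb x' y) + jo x' (kb x y) := by
    rw [kb_skew, ad_jo hB h3, kb_skew y x, kb_skew y x', jo_neg1, jo_neg2, jo_comm (kb x y)]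
    abel
  rw [e, jo_add1, a1, a1]
  have e1 : asc x (kb x' y) c = asc c x (kb x' y) := (cyc' hB x (kb x' y) c).symm
  have e2 : asc x' (kb x y) c = - asc c x (kb x' y) := by
    rw [← cyc' hB x' (kb x y) c, phi_swap hB h3 h]
  rw [e1, e2]
  abel

/-- `u o (z o c) = z o (u o c) - T(c,z,u)` -/
theorem jj {c : B} (h : Cen c) (u z : B) : jo u (jo z c) = jo z (jo u c) - asc c z u := by
  have a1 : ∀ u z : B, jo (jo u z) c = jo u (jo z c) + asc u z c := by
    intro u z
    have := A3 hB h3 u z c
    rw [h.r, kb_zero2, zero_add] at this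
    rw [← this]; abel
  have e1 := a1 u z
  rw [jo_comm u z, a1 z u] at e1
  have e2 : asc u z c = - asc c z u := (s13 hB c z u)
  have e3 : asc z u c = asc c z u := (cyc' hB z u c).symm
  rw [e2, e3] at e1
  have t := h3 (asc c z u)
  linear_combination (norm := abel) -e1 + t

theorem Good.jot {c : B} (h : Good c) (x y t : B) : jo (kb x y) (jo t c) = 0 := by
  rw [jj hB h3 h.cen, h.bra, h.phi, jo_zero2, sub_zero]

theorem Good.asc_cen {c : B} (h : Good c) (p q : B) : Cen (asc c p q) := by
  intro w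
  rw [kb_skew, phi_kb hB h3 h.cen, h.phi, neg_zero]

/-- `c o T(u,z,x) = - u o T(c,z,x)` for `u = [y,w]` -/
theorem Good.l4b {c : B} (h : Good c) (y w z x : B) :
    jo c (asc (kb y w) z x) = - jo (kb y w) (asc c z x) := by
  have h1 := T_jo1 hB (kb y w) c z x
  rw [h.bra, asc_zero1] at h1
  rw [eq_neg_iff_add_eq_zero, add_comm]
  exact h1.symm

theorem Good.l4a {c : B} (h : Good c) (z x y w : B) :
    kf (jo z c) x y w = - jo (kb y w) (asc c z x) := by
  rw [F1 hB (jo z c) x y w]
  have e1 : kb (jo z c) x = 0 := by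
    rw [kb_skew, ad_jo hB h3, h.bra, h.cen.r, jo_zero2, add_zero, neg_zero]
  rw [e1, asc_zero1, zero_add, T_jo2 hB, ← h.l4b hB h3]
  have e2 : asc (kb y w) c x = asc c x (kb y w) := (cyc hB (kb y w) c x).symm
  rw [e2, h.phi, jo_zero2, zero_add]

theorem kf_add1 (a b x y w : B) : kf (a + b) x y w = kf a x y w + kf b x y w := by
  simp only [kf, add_mul, mul_add, asc_add1]; abel

theorem kf_zero1 (x y w : B) : kf 0 x y w = 0 := by
  simp [kf, asc_zero1]

theorem kf_neg1 (a x y w : B) : kf (-a) x y w = - kf a x y w := by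
  simp only [kf, neg_mul, mul_neg, asc_neg1]; abel

end

/-- Lie central derivations of the Jordan product -/
structure ZD (g : B → B) : Prop where
  add : ∀ a b, g (a + b) = g a + g b
  der : ∀ a b, g (jo a b) = jo a (g b) + jo b (g a)
  cen : ∀ a, Cen (g a)

section
variable (hB : IsAlt B) (h3 : ∀ x : B, x + x + x = 0)
include hB h3

theorem ZD.alt {g : B → B} (h : ZD g) (z u d : B) :
    jo (kb z d) (g u) = - jo (kb u d) (g z) := by
  have h1 : kb d (g (jo z u)) = 0 := (h.cen _).r d
  rw [h.der, kb_add2, ad_jo hB h3, ad_jo hB h3, (h.cen _).r, (h.cen _).r, jo_zero2, jo_zero2,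
    add_zero, add_zero, kb_skew d z, kb_skew d u, jo_neg1, jo_neg1] at h1
  rw [eq_neg_iff_add_eq_zero, ← neg_zero, ← h1]
  abel

theorem ZD.alt' {g : B → B} (h : ZD g) (z u d : B) :
    jo (kb d z) (g u) = - jo (kb d u) (g z) := by
  rw [kb_skew d z, kb_skew d u, jo_neg1, jo_neg1, h.alt hB h3]

end

end Pool.Agent.TP.RC
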