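import Pool.Agent.Helper99_TP3.Desc2

/-!
# MP_ce3ba7_al, module C3-C (helper99): rule C in characteristic 3

`van_one`: if `B` is a maximal algebra of characteristic 3, not commutative, with a multilinear
identity of nonzero coefficient sum, then every natural function with Lie central values which is
a derivation of the Jordan product in one letter vanishes.

`comm`: if moreover `[x,[x,b]] = 0` on `B` then `B` is commutative.
-/

set_option autoImplicit false
set_option linter.unusedSectionVars false

namespace Pool.Agent.TP.RC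

open Pool.Agent.TP Pool.Agent.TP.H67 Pool.Agent.TP.B3 Function
open Pool.Agent.TP.NF (IsNat)

section
variable (F : Type) [Field F] (B : Type) [NonUnitalNonAssocRing B] [Module F B]
  [IsScalarTower F B B] [SMulCommClass F B B]

/-- commutator ideal -/
def CI : Submodule F B :=
  sInf {I : Submodule F B | (∀ a ∈ I, ∀ b : B, a * b ∈ I ∧ b * a ∈ I) ∧ ∀ a b : B, kb a b ∈ I}

end

section
variable {F : Type} [Field F] {B : Type} [NonUnitalNonAssocRing B] [Module F B]
  [IsScalarTower F B B] [SMulCommClass F B B] {x : ℕ → B}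

theorem CI_le {I : Submodule F B} (h1 : ∀ a ∈ I, ∀ b : B, a * b ∈ I ∧ b * a ∈ I)
    (h2 : ∀ a b : B, kb a b ∈ I) : CI F B ≤ I := sInf_le ⟨h1, h2⟩

theorem kb_mem_CI (a b : B) : kb a b ∈ CI F B :=
  (Submodule.mem_sInf).2 fun _ hI => hI.2 a b

theorem CI_T : TIdeal F B (CI F B) := by
  refine ⟨fun a ha b => ⟨?_, ?_⟩, fun Φ a ha => ?_⟩
  · exact (Submodule.mem_sInf).2 fun I hI => (hI.1 a ((Submodule.mem_sInf).1 ha I hI) b).1
  · exact (Submodule.mem_sInf).2 fun I hI => (hI.1 a ((Submodule.mem_sInf).1 ha I hI) b).2
  · refine (Submodule.mem_sInf).2 fun I hI => ?_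
    have : CI F B ≤ I.comap (Φ : B →ₗ[F] B) := by
      refine CI_le (fun a ha b => ?_) fun a b => ?_
      · have ha' : Φ a ∈ I := ha
        refine ⟨?_, ?_⟩
        · show Φ (a * b) ∈ I
          rw [map_mul]
          exact (hI.1 _ ha' _).1
        · show Φ (b * a) ∈ I
          rw [map_mul]
          exact (hI.1 _ ha' _).2
      · show Φ (kb a b) ∈ I
        have : Φ (kb a b) = kb (Φ a) (Φ b) := by
          unfold kb
          rw [map_sub, map_mul, map_mul]
        rw [this]
        exact hI.2 _ _
    exact this ha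

variable {S : Set (MonoidAlgebra F (FreeMagma ℕ))} (hM : MaxAlg F S B x) (hR : Rules B)
  (h3 : ∀ x : B, x + x + x = 0)
include hM hR h3

/-- Lie central elements with zero Jordan multiplication -/
theorem cen_zero {c : B} (hc : Cen c) (h : ∀ u : B, jo u c = 0) : c = 0 := by
  refine hR.right c fun y => ?_
  have h1 := h y
  rw [hc.jo_mul hM.alt h3] at h1
  rw [hc.comm, ← neg_eq_zero, h1]

theorem descent (hnc : CI F B ≠ ⊥) {k : ℕ} (hk : 1 ≤ k) (hV : VanZ F x (k + 1)) :
    VanZ F x k := by
  intro s hs f hf v
  have hB := hM.alt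
  have hrel := hM.rel
  obtain ⟨n, hn⟩ := hf.nat.fin hrel
  set N := max n (s.sup id + 1) with hNdef
  have hdep : Dep N f := by
    intro t ht v a
    refine hn _ _ fun i hi => ?_
    rw [update_of_ne]
    have : n ≤ N := le_max_left _ _
    omega
  have hlt : ∀ i ∈ s, i < N := by
    intro i hi
    have h1 : i ≤ s.sup id := Finset.le_sup (f := id) hi
    have h2 : s.sup id + 1 ≤ N := le_max_right _ _
    omega
  have hpre := MZ.pre hrel hB h3 hk hV hs hf hdep hlt
  have hP := step5 hrel hB h3 hV hs hpre (fun i hi v a b => (hf.der i hi v).der a b)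
  have hgood : ∀ m w, Good (cm N f m w) := fun m w => (hP m m le_rfl).good w
  let K : Submodule F B :=
    { carrier := {u | ∀ m w, jo u (cm N f m w) = 0 ∧ ∀ b, asc u (cm N f m w) b = 0}
      add_mem' := fun {a b} ha hb m w =>
        ⟨by rw [jo_add1, (ha m w).1, (hb m w).1, add_zero],
          fun c => by rw [asc_add1, (ha m w).2, (hb m w).2, add_zero]⟩
      zero_mem' := fun m w => ⟨jo_zero1 _, fun c => asc_zero1 _ _⟩
      smul_mem' := fun r a ha m w =>
        ⟨by
          have h1 := (ha m w).1
          unfold jo at h1 ⊢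
          rw [smul_mul_assoc, mul_smul_comm, ← smul_add, h1, smul_zero],
        fun c => by
          have h1 := (ha m w).2 c
          unfold asc at h1 ⊢
          rw [smul_mul_assoc, smul_mul_assoc, smul_mul_assoc, ← smul_sub, h1, smul_zero]⟩ }
  have hkb : ∀ a b : B, kb a b ∈ K := by
    intro a b m w
    refine ⟨(hgood m w).bra a b, fun c => ?_⟩
    have h1 : asc (kb a b) (cm N f m w) c = asc (cm N f m w) c (kb a b) :=
      (cyc hB (kb a b) (cm N f m w) c).symm
    rw [h1, (hgood m w).phi]
  have hjo : ∀ u ∈ K, ∀ b : B, jo u b ∈ K := by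
    intro u hu b m w
    have hc := (hgood m w).cen
    have e1 : jo u (jo b (cm N f m w)) = 0 := by
      have h1 := A3 hB h3 b (cm N f m w) u
      rw [hc (kb b u), jo_comm (cm N f m w) u, (hu m w).1, jo_zero2, zero_add] at h1
      have h2 : asc b (cm N f m w) u = 0 := by
        rw [s13 hB u (cm N f m w) b, (hu m w).2, neg_zero]
      rw [h2, sub_zero, jo_comm] at h1
      exact h1
    have e2 : asc u b (cm N f m w) = 0 := by
      rw [s23 hB u (cm N f m w) b, (hu m w).2, neg_zero]
    refine ⟨?_, fun c => ?_⟩
    · have h1 := A3 hB h3 u b (cm N f m w)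
      rw [e1, e2, hc.r, kb_zero2, sub_zero, add_zero] at h1
      exact h1
    · rw [T_jo1 hB, (hu m w).2, jo_zero2, add_zero, s12 hB (cm N f m w) b c, cm_val hdep,
        jo_neg2, (hu _ _).1, neg_zero]
  have hK : ∀ a ∈ K, ∀ b : B, a * b ∈ K ∧ b * a ∈ K := by
    intro a ha b
    rw [mul_eq hB h3 a b, mul_eq hB h3 b a, jo_comm b a]
    exact ⟨K.sub_mem (K.neg_mem (hjo a ha b)) (hkb _ _),
      K.sub_mem (K.neg_mem (hjo a ha b)) (hkb _ _)⟩
  have hCK : CI F B ≤ K := CI_le hK hkb
  set g : (ℕ → B) → B := fun v => jo (v N) (f v) with hg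
  have hgn : IsNat F x g := (IsNat.proj N).jo hf.nat
  have hz : ∀ v, g v = 0 := by
    refine hgn.lemQ hM (CI F B) CI_T hnc fun v hv => ?_
    exact (hCK (hv N) 0 v).1
  refine cen_zero hM hR h3 (hpre.cen v) fun u => ?_
  have h1 := hz (update v N u)
  rw [hg] at h1
  simp only [update_self] at h1
  rw [hdep N le_rfl] at h1
  exact h1

/-- derivations of large arity vanish -/
theorem van_base (hml : MLId F B) : ∃ n, VanZ F x n := by
  have hB := hM.alt
  obtain ⟨n, hn⟩ := base hB h3 hml
  refine ⟨n + 1, fun s hs f hf => ?_⟩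
  obtain ⟨i0, hi0⟩ : s.Nonempty := by
    rw [← Finset.card_pos]; omega
  have hcen : ∀ v, Cen (f v) := fun v => (hf.der i0 hi0).cen v
  have hn' : ∀ v : ℕ → B, (∀ i ∈ s, ∃ a b, v i = jo a b) → f v = 0 := by
    intro v hv
    exact hn (s.erase i0) (by rw [Finset.card_erase_of_mem hi0, hs]; rfl) f
      (fun j hj => hf.der j (Finset.mem_of_mem_erase hj)) v
      (fun j hj => hv j (Finset.mem_of_mem_erase hj))
  let J : Submodule F B :=
    { carrier := AddSubgroup.closure {r : B | ∃ a b, r = jo a b}
      add_mem' := fun {a b} ha hb => add_mem ha hb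
      zero_mem' := zero_mem _
      smul_mem' := fun c a ha => by
        have ha' : a ∈ AddSubgroup.closure {r : B | ∃ a b, r = jo a b} := ha
        show c • a ∈ AddSubgroup.closure {r : B | ∃ a b, r = jo a b}
        clear ha
        induction ha' using AddSubgroup.closure_induction with
        | mem r hr =>
          obtain ⟨a, b, rfl⟩ := hr
          refine AddSubgroup.subset_closure ⟨c • a, b, ?_⟩
          unfold jo
          rw [smul_mul_assoc, mul_smul_comm, smul_add]
        | zero => rw [smul_zero]; exact zero_mem _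
        | add a b _ _ ha hb => rw [smul_add]; exact add_mem ha hb
        | neg a _ ha => rw [smul_neg]; exact neg_mem ha }
  have hJm : ∀ a b : B, jo a b ∈ J := fun a b => AddSubgroup.subset_closure ⟨a, b, rfl⟩
  have hJk : ∀ a ∈ J, ∀ b : B, kb b a ∈ J := by
    intro a ha b
    have ha' : a ∈ AddSubgroup.closure {r : B | ∃ a b, r = jo a b} := ha
    clear ha
    induction ha' using AddSubgroup.closure_induction with
    | mem r hr =>
      obtain ⟨a, c, rfl⟩ := hr
      rw [ad_jo hB h3]
      exact J.add_mem (hJm _ _) (hJm _ _)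
    | zero => rw [kb_zero2]; exact J.zero_mem
    | add a c _ _ ha hc => rw [kb_add2]; exact J.add_mem ha hc
    | neg a _ ha => rw [kb_neg2]; exact J.neg_mem ha
  have hJT : TIdeal F B J := by
    refine ⟨fun a ha b => ?_, fun Φ a ha => ?_⟩
    · rw [mul_eq hB h3 a b, mul_eq hB h3 b a, kb_skew a b]
      exact ⟨J.sub_mem (J.neg_mem (hJm a b)) (J.neg_mem (hJk a ha b)),
        J.sub_mem (J.neg_mem (hJm b a)) (hJk a ha b)⟩
    · have ha' : a ∈ AddSubgroup.closure {r : B | ∃ a b, r = jo a b} := ha
      clear ha
      induction ha' using AddSubgroup.closure_induction with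
      | mem r hr =>
        obtain ⟨a, c, rfl⟩ := hr
        have : Φ (jo a c) = jo (Φ a) (Φ c) := by
          unfold jo
          rw [map_add, map_mul, map_mul]
        rw [this]
        exact hJm _ _
      | zero => rw [map_zero]; exact J.zero_mem
      | add a c _ _ ha hc => rw [map_add]; exact J.add_mem ha hc
      | neg a _ ha => rw [_root_.map_neg]; exact J.neg_mem ha
  by_cases hJ0 : J = ⊥
  · intro v
    refine cen_zero hM hR h3 (hcen v) fun u => ?_
    have : jo u (f v) ∈ J := hJm _ _
    rwa [hJ0, Submodule.mem_bot] at this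
  · refine hf.nat.lemQ hM J hJT hJ0 ?_
    have key : ∀ s' : Finset ℕ, s' ⊆ s → ∀ v : ℕ → B, (∀ i ∈ s', v i ∈ J) →
        (∀ i ∈ s, i ∉ s' → ∃ a b, v i = jo a b) → f v = 0 := by
      intro s'
      induction s' using Finset.induction_on with
      | empty =>
        intro _ v _ hv
        exact hn' v fun i hi => hv i hi (Finset.notMem_empty i)
      | insert j s' hj ih =>
        intro hsub v h1 h2
        have hjs : j ∈ s := hsub (Finset.mem_insert_self _ _)
        have h4 := hf.der j hjs v
        have key2 : ∀ b ∈ AddSubgroup.closure {r : B | ∃ a b, r = jo a b},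
            f (update v j b) = 0 := by
          intro b hb
          induction hb using AddSubgroup.closure_induction with
          | mem r hr =>
            refine ih (fun i hi => hsub (Finset.mem_insert_of_mem hi)) _ (fun i hi => ?_)
              (fun i hi hi' => ?_)
            · have : i ≠ j := by rintro rfl; exact hj hi
              rw [update_of_ne this]
              exact h1 i (Finset.mem_insert_of_mem hi)
            · by_cases hij : i = j
              · subst hij
                rw [update_self]
                exact hr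
              · rw [update_of_ne hij]
                exact h2 i hi (by rw [Finset.mem_insert]; push Not; exact ⟨hij, hi'⟩)
          | zero => exact ZD.zero hB h3 _ h4
          | add a b _ _ ha hb => rw [h4.add a b, ha, hb, add_zero]
          | neg a _ ha => rw [h4.map_neg hB h3 a, ha, neg_zero]
        have h5 := key2 (v j) (h1 j (Finset.mem_insert_self _ _))
        rwa [update_eq_self] at h5
    intro v hv
    exact key s (Finset.Subset.refl _) v (fun i _ => hv i) (fun i hi hi' => absurd hi hi')

/-- RULE C: Lie central natural derivations in one letter vanish -/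
theorem van_one (hml : MLId F B) (hnc : CI F B ≠ ⊥) : VanZ F x 1 := by
  obtain ⟨n, hn⟩ := van_base hM hR h3 hml
  have key : ∀ d k : ℕ, 1 ≤ k → VanZ F x (k + d) → VanZ F x k := by
    intro d
    induction d with
    | zero => intro k _ h; exact h
    | succ d ih =>
      intro k hk h
      refine descent hM hR h3 hnc hk (ih (k + 1) (by omega) ?_)
      rwa [show k + 1 + d = k + (d + 1) by omega]
  exact key n 1 le_rfl (by
    rw [add_comm]
    exact hn.succ)

/-- RULE C with `[x,[x,b]] = 0`: `B` is commutative -/
theorem comm (hml : MLId F B) (hX : ∀ x b : B, kb x (kb x b) = 0) (a b : B) : a * b = b * a := by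
  have hB := hM.alt
  by_contra hab
  have hnc : CI F B ≠ ⊥ := by
    intro h0
    have h1 : kb a b ∈ CI F B := kb_mem_CI a b
    rw [h0, Submodule.mem_bot] at h1
    exact hab (sub_eq_zero.mp h1)
  have hV := van_one hM hR h3 hml hnc
  -- `[[a,b],c]` is alternating
  have p1 : ∀ a b c : B, kb a (kb c b) = - kb c (kb a b) := by
    intro a b c
    have h1 := hX (a + c) b
    rw [kb_add1, kb_add1, kb_add2, kb_add2, hX, hX, zero_add, add_zero] at h1
    exact eq_neg_of_add_eq_zero_left h1
  have w1 : ∀ a b c : B, kb (kb b a) c = - kb (kb a b) c := by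
    intro a b c
    rw [kb_skew b a, kb_neg1]
  have w2 : ∀ a b c : B, kb (kb a c) b = - kb (kb a b) c := by
    intro a b c
    have h1 := p1 b a c
    rw [kb_skew (kb a c) b, kb_skew (kb a b) c, kb_skew a c, kb_skew a b, kb_neg2, kb_neg2, h1]
  have w3 : ∀ a b c : B, kb (kb b c) a = kb (kb a b) c := by
    intro a b c
    rw [w2 b a c, w1 a b c, neg_neg]
  -- class 3
  have v12 : ∀ a b c d : B, kb (kb (kb b a) c) d = - kb (kb (kb a b) c) d := by
    intro a b c d
    rw [w1 a b c, kb_neg1]
  have v23 : ∀ a b c d : B, kb (kb (kb a c) b) d = - kb (kb (kb a b) c) d := by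
    intro a b c d
    rw [w2 a b c, kb_neg1]
  have v34 : ∀ a b c d : B, kb (kb (kb a b) d) c = - kb (kb (kb a b) c) d :=
    fun a b c d => w2 (kb a b) c d
  have v1 : ∀ a b c d : B, kb (kb (kb a b) c) d = 0 := by
    have e1 : ∀ a b c d : B, kb (kb a b) (kb c d) = kb (kb (kb c d) a) b := by
      intro a b c d
      rw [w3 (kb c d) a b]
    intro a b c d
    have e2 : kb (kb (kb c d) a) b = kb (kb (kb a b) c) d := by
      rw [v23 c a d b, v12 a c d b, v34 a c b d, v23 a b c d]
      abel
    have e3 := e1 a b c d
    rw [kb_skew, e1 c d a b, e2] at e3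
    apply eq0 hB h3
    nth_rewrite 1 [← e3]
    exact neg_add_cancel _
  have j1 : ∀ x z w : B, jo (kb x z) (kb x w) = 0 := by
    intro x z w
    have h1 := hX x (jo z w)
    rw [ad_jo hB h3, kb_add2, ad_jo hB h3, ad_jo hB h3, hX, hX, jo_zero1, jo_zero2, zero_add,
      add_zero] at h1
    exact eq0 hB h3 h1
  have j2 : ∀ a a' z w : B, jo (kb a z) (kb a' w) = - jo (kb a' z) (kb a w) := by
    intro a a' z w
    have h1 := j1 (a + a') z w
    rw [kb_add1, kb_add1, jo_add1, jo_add2, jo_add2, j1, j1, zero_add, add_zero] at h1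
    exact eq_neg_of_add_eq_zero_left h1
  have hW : ∀ a b c : B, kb (kb a b) c = 0 := by
    have hz : ∀ v : ℕ → B, kb (kb (v 0) (v 1)) (v 2) = 0 := by
      refine hV {0} rfl (fun v => kb (kb (v 0) (v 1)) (v 2)) ⟨?_, ?_⟩
      · exact ((IsNat.proj 0).kb (IsNat.proj 1)).kb (IsNat.proj 2)
      · intro i hi v
        rw [Finset.mem_singleton] at hi
        subst hi
        have e : (fun a => (fun v : ℕ → B => kb (kb (v 0) (v 1)) (v 2)) (update v 0 a)) =
            fun a => kb (kb a (v 1)) (v 2) := by
          funext a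
          show kb (kb (update v 0 a 0) (update v 0 a 1)) (update v 0 a 2) = _
          rw [update_self, update_of_ne (by omega), update_of_ne (by omega)]
        rw [e]
        refine ⟨fun a b => by rw [kb_add1, kb_add1], fun a b => ?_, fun a d => v1 _ _ _ _⟩
        rw [kb_jo hB h3, kb_add1, kb_jo hB h3, kb_jo hB h3, j2 b a (v 1) (v 2)]
        abel
    intro a b c
    have h1 := hz (fun i => if i = 0 then a else if i = 1 then b else c)
    simpa using h1
  have hK : kb a b = 0 := by
    have hz : ∀ v : ℕ → B, kb (v 0) (v 1) = 0 := by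
      refine hV {0} rfl (fun v => kb (v 0) (v 1)) ⟨?_, ?_⟩
      · exact (IsNat.proj 0).kb (IsNat.proj 1)
      · intro i hi v
        rw [Finset.mem_singleton] at hi
        subst hi
        have e : (fun a => (fun v : ℕ → B => kb (v 0) (v 1)) (update v 0 a)) =
            fun a => kb a (v 1) := by
          funext a
          show kb (update v 0 a 0) (update v 0 a 1) = _
          rw [update_self, update_of_ne (by omega)]
        rw [e]
        exact ⟨fun a b => by rw [kb_add1], fun a b => kb_jo hB h3 a b (v 1),
          fun a d => hW _ _ _⟩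
    have h1 := hz (fun i => if i = 0 then a else b)
    simpa using h1
  exact hab (sub_eq_zero.mp hK)

end

end Pool.Agent.TP.RC
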